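import Pool.Agent.Helper51.HH.Tree
import Pool.Agent.Helper66.HH.Exits

/-!
# HH-DH: two isolated pins whose exits meet in a cell have different hubs

Same hub: the path `x p → u → w → .. → w' → u' → x p'` has length at most `5 τ`, `τ = dep u ≥ dep u'`; one of the
three vertices `par^[j] u`, `j = 0, 2 ρ + 1, 4 ρ + 2`, `ρ = τ / 2000`, has a free ball of radius `ρ`. This is a place E4.
-/

open Set
open Pool.Agent.Helper83.OP
open Pool.Agent.Helper43.HH
open Pool.Agent.Helper93.HH Pool.Agent.Helper93.HH.HD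

namespace Pool.Agent.Helper33.HH

variable {V P Q : Type} [Finite V] [Finite P] {D : HD V P Q} {K : ℕ}

theorem nr_iter {C : Set V} {ra : V → ℕ} (E : Cel D C ra) (u : V) (j : ℕ) (hj : j ≤ E.dep u) :
    Nr D.N j u (E.par^[j] u) := by
  have h1 := anc_iter E.par_dep u j hj
  have h2 := iter_dep E.par_dep u j hj
  obtain ⟨p, -, h3, -⟩ := Pool.Agent.Helper51.HH.down_path E h1
  exact Nr.symm ⟨p, by omega⟩

/-- a free ball on the way from the centre to `u` -/
theorem free_ball (S : Sys D K) {u : V} (hu : u ∈ D.VN)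
    (hra : S.ra (S.E.ctr u) = 0) (ρ : ℕ) (hρ : 200 * (5 * ρ + 2) < S.E.dep u) :
    ∃ j, j ≤ S.E.dep u ∧ D.Free ρ (S.E.par^[j] u) := by
  have h1 := S.sc_le u hu
  unfold Cel.sc at h1
  rw [hra] at h1
  have h2 := le_abs_self ((S.E.dep u : ℤ) - (0 : ℕ))
  have h3 : S.E.dep u ≤ 200 * D.Rs u := by
    have : (S.E.dep u : ℤ) ≤ 200 * D.Rs u := by
      have h4 := h2.trans h1
      push_cast at h4
      omega
    exact_mod_cast this
  have h5 : 5 * ρ + 2 < D.Rs u := by omega
  have h6 : 5 * ρ + 2 < D.sg u := lt_of_lt_of_le h5 (D.Rs_le_sg u)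
  have h7 : 5 * ρ + 2 < D.Rv u := lt_of_lt_of_le h5 (D.Rs_le_Rv u)
  by_contra hcon
  push Not at hcon
  have key : ∀ j, j ≤ 4 * ρ + 2 → ∃ p, Nr D.N ρ (S.E.par^[j] u) (D.x p) := by
    intro j hj
    by_contra hno
    push Not at hno
    exact hcon j (by omega) (D.free_of (nr_iter S.E u j (by omega)) (by omega) hno)
  have hdist : ∀ j k, j + (2 * ρ + 1) ≤ k → k ≤ 4 * ρ + 2 → ∀ p p',
      Nr D.N ρ (S.E.par^[j] u) (D.x p) → Nr D.N ρ (S.E.par^[k] u) (D.x p') → p ≠ p' := by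
    intro j k hjk hk p p' hp hp' he
    subst he
    have e1 := iter_dep S.E.par_dep u j (by omega)
    have e2 := iter_dep S.E.par_dep u k (by omega)
    have e3 := hp.trans hp'.symm
    have e4 : Nr D.N (S.E.dep (S.E.par^[k] u)) (S.E.par^[k] u) (S.E.ctr u) := by
      have h8 := nr_iter S.E (S.E.par^[k] u) _ le_rfl
      rwa [Pool.Agent.Helper51.HH.root_iter, Pool.Agent.Helper51.HH.ctr_iter S.E u k (by omega)] at h8
    have e5 := e3.trans e4
    have e6 : S.E.ctr (S.E.par^[j] u) = S.E.ctr u :=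
      Pool.Agent.Helper51.HH.ctr_iter S.E u j (by omega)
    rw [← e6] at e5
    have e7 := S.E.dep_min _ _ e5
    omega
  obtain ⟨a, ha⟩ := key 0 (by omega)
  obtain ⟨b, hb⟩ := key (2 * ρ + 1) (by omega)
  obtain ⟨c, hc⟩ := key (4 * ρ + 2) (by omega)
  have n1 := nr_iter S.E u 0 (by omega)
  have n2 := nr_iter S.E u (2 * ρ + 1) (by omega)
  have n3 := nr_iter S.E u (4 * ρ + 2) (by omega)
  have h9 := D.sg_three (y := u) (t := 5 * ρ + 2)
    (hdist 0 (2 * ρ + 1) (by omega) (by omega) a b ha hb)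
    (hdist 0 (4 * ρ + 2) (by omega) (by omega) a c ha hc)
    (hdist (2 * ρ + 1) (4 * ρ + 2) (by omega) (by omega) b c hb hc)
    ((n1.trans ha).mono (by omega)) ((n2.trans hb).mono (by omega)) ((n3.trans hc).mono (by omega))
  omega

variable [Finite Q]

theorem diff_aux {D0 M : ℕ} (S : Sys D K) (hD : D.Ok) (hK : 4000 * (400 * M + 10) ≤ K)
    (hN : D.NoPl K) (h0 : 10 ^ 6 ≤ D0) {p p' : P} (hp : Iso S D0 M p) (hp' : Iso S D0 M p')
    (hne : p ≠ p') {u w u' w' : V} (h : Al S p u w) (h' : Al S p' u' w') (hd : ¬ Drop S u w)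
    (hd' : ¬ Drop S u' w') (hw : S.E.ctr w = S.E.ctr w') (hle : S.E.dep u' ≤ S.E.dep u)
    (hh : D.hub p = D.hub p') : False := by
  classical
  have hL := Pool.Agent.Helper51.HH.L_ge hD
  obtain ⟨hp1, hp2, hp3⟩ := hp
  obtain ⟨hp1', hp2', -⟩ := hp'
  have hx : D.x p ≠ D.x p' := by
    intro he
    have h1 : Nr D.N 0 (D.x p) (D.x p') := by
      rw [he]
      exact Nr.refl _ _ _
    have := hN.e2 p p' hne hh 0 h1
    omega
  obtain ⟨⟨hu, hwc, hadj⟩, -⟩ := id h
  obtain ⟨⟨hu', hwc', hadj'⟩, -⟩ := id h'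
  have hK4 : 10 ^ 4 ≤ K := by
    refine le_trans ?_ hK
    omega
  have hs0 : 0 < D.sg (D.x p) := by omega
  obtain ⟨hsg, -⟩ := Pool.Agent.Helper66.HH.exit_dep hD S hK4 hN p hp1 hs0 h hd
  set τ := S.E.dep u with hτ
  have hDL : 10 ^ 6 * D.L ≤ D0 * D.L := Nat.mul_le_mul_right _ h0
  have hτL : 3333 * D.L ≤ τ := by omega
  -- the radii
  have hrap : S.ra (D.x p) = 0 := S.ra_x p hp1
  have hrap' : S.ra (D.x p') = 0 := S.ra_x p' hp1'
  have hraw : 10 * S.ra (S.E.ctr w) ≤ τ := by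
    rcases S.E.ctr_mem w (VN_of_adj' hadj) with hz | ⟨q, hq, hqx⟩
    · rw [S.ra_Z _ hz]
      by_contra hcon
      exact hd ⟨hz, by omega⟩
    · rw [← hqx, S.ra_x q hq]
      omega
  have hraw' : 10 * S.ra (S.E.ctr w) ≤ S.E.dep u' := by
    rcases S.E.ctr_mem w (VN_of_adj' hadj) with hz | ⟨q, hq, hqx⟩
    · rw [S.ra_Z _ hz]
      by_contra hcon
      refine hd' ⟨?_, ?_⟩
      · rw [← hw]; exact hz
      · rw [← hw]; omega
    · rw [← hqx, S.ra_x q hq]
      omega
  have hdw : 10 * S.E.dep w ≤ 11 * τ + 10 := by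
    have h1 := (Pool.Agent.Helper66.HH.exit_sc hD S hadj).1
    unfold Cel.sc at h1
    rw [hu, hrap] at h1
    push_cast at h1
    omega
  have hdw' : 10 * S.E.dep w' ≤ 11 * S.E.dep u' + 10 := by
    have h1 := (Pool.Agent.Helper66.HH.exit_sc hD S hadj').1
    unfold Cel.sc at h1
    rw [hu', hrap', ← hw] at h1
    push_cast at h1
    omega
  -- the free ball
  have hρ : D.L ≤ τ / 2000 := by
    rw [Nat.le_div_iff_mul_le (by norm_num)]
    omega
  obtain ⟨j, hj, hfree⟩ := free_ball S (VN_of_adj hadj) (by rw [hu]; exact hrap) (τ / 2000)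
    (by omega)
  set y := S.E.par^[j] u with hy
  have hyu : Anc S.E.par S.E.dep y u := anc_iter S.E.par_dep u j hj
  have hcy : S.E.ctr y = D.x p := by rw [Pool.Agent.Helper51.HH.ctr_anc S.E hyu, hu]
  have hxy : Anc S.E.par S.E.dep (D.x p) y := by
    have := Pool.Agent.Helper51.HH.anc_ctr S.E y
    rwa [hcy] at this
  obtain ⟨p1, a1, a2, a3, -⟩ := Pool.Agent.Helper51.HH.down_path S.E hxy
  obtain ⟨p2, b1, b2, b3, -⟩ := Pool.Agent.Helper51.HH.down_path S.E hyu
  have hW1 : (p1.append p2).IsPath := by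
    refine Pool.Agent.Helper51.HH.isPath_append a1 b1 ?_
    intro z hz hz'
    have c1 := (a3 z hz).2
    have c2 := (b3 z hz').1
    exact c1.eq (le_antisymm c1.1 c2.1)
  have hW1c : ∀ z ∈ (p1.append p2).support, S.E.ctr z = D.x p := by
    intro z hz
    rw [SimpleGraph.Walk.mem_support_append_iff] at hz
    rcases hz with hz | hz
    · rw [Pool.Agent.Helper51.HH.ctr_anc S.E (a3 z hz).2, hcy]
    · rw [Pool.Agent.Helper51.HH.ctr_anc S.E (b3 z hz).2, hu]
  have hdx : S.E.dep (D.x p) = 0 := by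
    rw [← hu]
    exact Pool.Agent.Helper51.HH.dep_ctr S.E u
  have hdx' : S.E.dep (D.x p') = 0 := by
    rw [← hu']
    exact Pool.Agent.Helper51.HH.dep_ctr S.E u'
  have hcx' : S.E.ctr u' = S.E.ctr (D.x p') := by
    rw [← hu', S.E.ctr_ctr]
  obtain ⟨c1, X, hX, -, -, -, -, hXl, hXc, -⟩ := Pool.Agent.Helper51.HH.cell_path S.E hw
  obtain ⟨c2, W3, hW3, -, -, -, -, hW3l, hW3c, -⟩ := Pool.Agent.Helper51.HH.cell_path S.E hcx'
  have hR1 : (SimpleGraph.Walk.cons hadj'.symm W3).IsPath := by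
    rw [SimpleGraph.Walk.cons_isPath_iff]
    refine ⟨hW3, fun hmem => ?_⟩
    have := hW3c _ hmem
    rw [hu'] at this
    exact hwc' this
  have hR : (X.append (SimpleGraph.Walk.cons hadj'.symm W3)).IsPath := by
    refine Pool.Agent.Helper51.HH.isPath_append hX hR1 ?_
    intro z hz hz'
    rw [SimpleGraph.Walk.support_cons, List.mem_cons] at hz'
    rcases hz' with hz' | hz'
    · exact hz'
    · have e1 := hXc z hz
      rw [hW3c z hz', hu', hw] at e1
      exact absurd e1.symm hwc'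
  have hRc : ∀ z ∈ (X.append (SimpleGraph.Walk.cons hadj'.symm W3)).support,
      S.E.ctr z ≠ D.x p := by
    intro z hz
    rw [SimpleGraph.Walk.mem_support_append_iff, SimpleGraph.Walk.support_cons, List.mem_cons] at hz
    rcases hz with hz | hz | hz
    · rw [hXc z hz]
      exact hwc
    · rw [hz, ← hw]
      exact hwc
    · rw [hW3c z hz, hu']
      exact hx.symm
  have hT1 : (SimpleGraph.Walk.cons hadj (X.append (SimpleGraph.Walk.cons hadj'.symm W3))).IsPath := by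
    rw [SimpleGraph.Walk.cons_isPath_iff]
    exact ⟨hR, fun hmem => hRc _ hmem hu⟩
  have hT : ((p1.append p2).append
      (SimpleGraph.Walk.cons hadj (X.append (SimpleGraph.Walk.cons hadj'.symm W3)))).IsPath := by
    refine Pool.Agent.Helper51.HH.isPath_append hW1 hT1 ?_
    intro z hz hz'
    rw [SimpleGraph.Walk.support_cons, List.mem_cons] at hz'
    rcases hz' with hz' | hz'
    · exact hz'
    · exact absurd (hW1c z hz) (hRc z hz')
  have hymem : y ∈ ((p1.append p2).append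
      (SimpleGraph.Walk.cons hadj (X.append (SimpleGraph.Walk.cons hadj'.symm W3)))).support := by
    rw [SimpleGraph.Walk.mem_support_append_iff, SimpleGraph.Walk.mem_support_append_iff]
    exact Or.inl (Or.inr p2.start_mem_support)
  have he4 := hN.e4 p p' hne hh _ hT y hymem _ hρ hfree
  rw [SimpleGraph.Walk.length_append, SimpleGraph.Walk.length_append, SimpleGraph.Walk.length_cons,
    SimpleGraph.Walk.length_append, SimpleGraph.Walk.length_cons] at he4
  -- numbers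
  have hτρ : τ ≤ 4000 * (τ / 2000) := by omega
  have hKρ : (400 * M + 10) * τ ≤ K * (τ / 2000) := by
    calc (400 * M + 10) * τ ≤ (400 * M + 10) * (4000 * (τ / 2000)) := Nat.mul_le_mul_left _ hτρ
      _ = 4000 * (400 * M + 10) * (τ / 2000) := by ring
      _ ≤ K * (τ / 2000) := Nat.mul_le_mul_right _ hK
  have hdeg : deg D.G (D.hub p) ≤ M * (301 * τ) := by
    refine hp3.trans (Nat.mul_le_mul_left _ ?_)
    omega
  have hMτ : (400 * M + 10) * τ = 400 * (M * τ) + 10 * τ := by ring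
  have hMτ' : M * (301 * τ) = 301 * (M * τ) := by ring
  rw [hMτ] at hKρ
  rw [hMτ'] at hdeg
  have hlen : p1.length + p2.length + (X.length + (W3.length + 1) + 1) ≤ 5 * τ := by omega
  have hfin := he4.trans_le (Nat.add_le_add hlen hdeg)
  have hfin2 := lt_of_le_of_lt hKρ hfin
  omega

theorem diff_hubs (M : ℕ) : ∃ K1, ∀ (V P Q : Type) [Finite V] [Finite P] [Finite Q] (D : HD V P Q)
    (K : ℕ) (S : Sys D K) (D0 : ℕ), D.Ok → K1 ≤ K → D.NoPl K → 10 ^ 6 ≤ D0 →
    ∀ (p p' : P), Iso S D0 M p → Iso S D0 M p' → p ≠ p' →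
    ∀ u w u' w', Al S p u w → Al S p' u' w' → ¬ Drop S u w → ¬ Drop S u' w' →
    S.E.ctr w = S.E.ctr w' → D.hub p ≠ D.hub p' := by
  refine ⟨4000 * (400 * M + 10), ?_⟩
  intro V P Q _ _ _ D K S D0 hD hK hN h0 p p' hp hp' hne u w u' w' h h' hd hd' hw hh
  rcases Nat.le_total (S.E.dep u') (S.E.dep u) with hle | hle
  · exact diff_aux S hD hK hN h0 hp hp' hne h h' hd hd' hw hle hh
  · exact diff_aux S hD hK hN h0 hp' hp hne.symm h' h hd' hd hw.symm hle hh.symm

end Pool.Agent.Helper33.HH
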